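import Mathlib
import Pool.Agent.H855.TV.Sing

/-!
# Jannsen's version of the conjecture of Tate for the products of **every** variety, singular or open,
with all varieties which satisfy the strong form of the conjecture of Tate, over all finite fields:
finitely many exceptional slope vectors

Let `K i` (`i` in any set `I`) be CM fields, for instance **all** CM fields, and let `V i` be the space of
the odd rational functions on the complex embeddings of `K i`, a representation of the automorphisms of
`ℂ`. We fix an isomorphism `ν` of the algebraic closure of `ℚ_p` with `ℂ`; it defines a `p`-adic
valuation `v` of `ℂ` with `v p = 1`. The slope vector of a Weil number `π` for `p ^ a` in `K i` is the
function `x φ = 2 v (φ π) - a` on the complex embeddings `φ` of `K i` (`slopeVector`). Let `π j` (`j` in a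
finite set `J`) be Weil numbers for `p ^ a` (any `a > 0`), each in one of the fields `K i`.

**The varieties `X`.** Let `X` be a smooth projective geometrically connected variety over the field with
`Q = p ^ r` elements (any `r > 0`), such that

* up to powers, the Frobenius eigenvalues of `X` are products of powers of conjugates of the `π j` and of
  `p` (`IsGenerated`);
* `X` satisfies the strong form of the conjecture of Tate: for all `i` the elements of the cohomology which
  Frobenius multiplies by `Q ^ i` are linear combinations of classes of cycles of codimension `i`, and
  this eigenvalue is semisimple (`IsTateVariety`; it is sufficient to consider cycles in given sets `S i`,
  for instance the products of `i` divisors);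
* homologically trivial correspondences from `X` to `X` with rational coefficients are nilpotent; this is
  true if the Chow motive of `X` is finite-dimensional in the sense of Kimura, for instance for abelian
  varieties, for products of curves, and for all varieties dominated by products of curves;
* the supersingular Frobenius eigenvalues of `X` are powers of `Q` (`IsTight`); this is true after a finite
  extension of the base field if and only if the cohomology of `X` in the odd degrees has no supersingular
  part.

For instance (after a finite extension of the base field, and without supersingular part in the odd
degrees) `X` can be a product of ordinary elliptic curves (Spiess), a Kummer surface, any abelian variety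
whose Tate classes are generated by divisor classes, or one with **exotic** Tate classes which are known to
be algebraic, or a product of curves with such a Jacobian.

A number `ρ` comes from the finite set `Ω` of complex numbers (`From p Ω`) if it is not zero and a power
of it is the product of a power of a conjugate of an element of `Ω`, or of `1`, and of a power of `p`.
(All Frobenius eigenvalues of a variety over a finite field, and of its base changes to all finite
extensions, come from such a set `Ω`: take one root of each irreducible factor of the characteristic
polynomials.)

**The varieties `Y`.** Let `Y` be **any** variety, singular or open, over a field `k` which is finitely
generated over the field with `Q` elements and in which this field is algebraically closed. We suppose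
that the eigenvalues of the Frobenius of the field of constants on the spaces of the
invariants of the geometric fundamental group (of an open part of a model of `k`) in the étale homology
groups `H_(2 j)(Y, ℚ_ℓ(j))` over the separable closure come from `Ω` (`DiagFrom`; if `k` is finite these
are the eigenvalues of Frobenius on the homology). **There is a finite set `Ω` as required for every
`Y`**, as these eigenvalues are Weil numbers of various weights (Deligne).

**The theorem: there is a set `E` of at most `|Ω|` pairs `(i, v)`, where `v` is an odd function, not zero,
on the complex embeddings of `K i`, such that for all `a`, `r`, all families `π j` for which no vector of
`E` is a combination of the slope vectors, all `X` as above and all `Y` as above the statement below is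
true.** The set `E` depends only on `ν`, `Ω` and the fields `K i`. If `Ω` is stable under the automorphisms
of `ℂ` and its elements are nonzero and lie in CM fields or totally real fields (the set of all Frobenius
eigenvalues; `IsStable`), then moreover `∑ w i ≤ |Ω|`, the sum over the elements `(i, v)` of `E`; here
`w i` is twice a lower bound for the dimensions of the nonzero stable subspaces of `V i`, so
`w i = [K i : ℚ]` if `V i` is irreducible, and `w i = 2` is always possible (`IsWeight`, `IsSmall`).

A vector `v` on the embeddings of a field `K` is a combination of the slope vectors (`IsCombination`)
if it is the sum of the images of the `x j` under equivariant maps, that is,
`v φ = ∑ t φ (j, ψ) * x j ψ` with rational numbers `t φ (j, ψ)` which are invariant under the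
automorphisms of `ℂ`, odd in `ψ`, and zero if the fields `K` and `L j` (the field of `π j`) are unrelated
(there are no nonzero equivariant maps between their odd functions). So if `K i` is unrelated to all the
`L j` the condition on the elements `(i, v)` of `E` is satisfied: apart from at most `|Ω|` fields, and the
fields related to them, there are **no** exceptional varieties `X`, over all finite fields. (Exceptions
are necessary: a variety can have common Tate classes with itself.)

Let `G` be the Galois group of `k`. There are cycles `D t` of codimension `c t` on `X`, whose classes are
a basis of the Tate classes on `X` (independent of `Y`), such that for all `j`

1. every element of `H_(2 j)(X × Y, ℚ_ℓ(j))^G` is in a unique way the sum of the products of the `D t`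
   with elements of `H_(2 i)(Y, ℚ_ℓ(i))^G`, `i = j - (dim X - c t)`;
2. **the cycle class map `CH_j(X × Y) ⊗ ℚ_ℓ → H_(2 j)(X × Y, ℚ_ℓ(j))^G` is surjective if and only if
   the maps `CH_i(Y) ⊗ ℚ_ℓ → H_(2 i)(Y, ℚ_ℓ(i))^G` are surjective for `i = j - n`, `0 ≤ n ≤ dim X`.**

No conjecture is assumed for `Y`, and neither a resolution of singularities nor a good proper cover of
`Y`. For instance the map is surjective for `X × Y` in all dimensions if `Y` is any curve, singular or
open, or any variety for which Jannsen's conjecture is known (with the exceptions above for `X`).

The result `ExceptionalVectors` of this run, which is replaced by this one, and the results
`ExceptionalSlopeLines` and `EveryVarietyTimes` of earlier runs are about abelian varieties `X` (called `A`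
there) given by families of Weil numbers which are independent, so that all Tate classes on `X` are
polynomials in divisor classes. Here `X` is any variety which satisfies the strong form of the conjecture
of Tate, and the family `π j` is arbitrary: it is not supposed that the Tate classes are generated by
divisors, and `X` need not be an abelian variety. If the Tate classes on `X` are generated by divisors
the `D t` can be chosen as products of divisors (take for `S i` the products of `i` divisors).

The framework: the Chow ring and the ring of correspondences of `X`, with rational coefficients, and the
whole `ℓ`-adic cohomology of `X`, with coefficients in `ℂ` (we choose an isomorphism of the algebraic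
closure of `ℚ_ℓ` with `ℂ`), with the formal properties (`AbelianData`, a structure of the library, called
`A` in its definitions, whose field `H1` is not used; `IsTateVariety`); and theories relative to `Y` (`SpanData`,
`IsSpanTheory`): the Chow groups (`T`) and the geometric invariants in the étale homology (`R`) of `Y` and
`X × Y`, indexed by the codimension, with the products with classes on `X`, the push-forward from
`X × Y` to `Y`, the operation of the correspondences from `X` to `X`, the Frobenius of the field of
constants operating through `Y`, and the cycle class map.

The proof. Let `α` be a Frobenius eigenvalue of `X` and `ρ` a number that comes from `Ω`, with `α ρ` a power
of `Q`. Up to powers `α` is a product of conjugates of the `π j`, so that the odd part of the function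
`σ ↦ v (σ α)` of the automorphisms `σ` of `ℂ` is a value `σ ↦ ∑ n (j, ψ) x j (σ ψ)` of the relation map of
the family, and it is the opposite of the one of `ρ`. For each `β` in `Ω` there is one vector `v` (the
exceptional vector of `β`) such that for all families outside of it only zero is at the same time a value
of the relation map and a multiple of the function of `β` (`exists_core`: one projects orthogonally to
the representation generated by a relation, and compares the relations of two families). So outside of
the exceptional vectors `α` is supersingular, hence a power of `Q` (`hasCore_tate`). By the conjecture of
Tate, the semisimplicity and Poincaré duality there are dual systems of cycles `D t`, `E t` on `X` with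
`deg (D t · E u) = δ`, whose classes are bases of the spaces of Tate classes (`exists_dual`). Let `p` be
the projector which they define, `F` the Frobenius endomorphism of `X`, and `P` the product of high powers
of the minimal polynomials of the eigenvalues of `F` which are not powers of `Q`. Then `P (F)` maps the
cohomology of `X` to the Tate classes, so that the correspondence `(1 - p) P (F)` is homologically
trivial, hence nilpotent; and `P (F)` is invertible on the elements on which `F φ` acts as `Q ^ j`, where `φ` is
the Frobenius endomorphism of `Y`,
since there `F` satisfies the polynomial with the roots `Q ^ j / ρ`. So `p` acts there as the identity.
-/

set_option autoImplicit false

namespace Pool.Agent.Results.MP_40dc3c_ag.TimesTateVarieties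

open NumberField Pool.Agent.Y137.MV Pool.Agent.H855.CM Pool.Agent.H855.TV

/-- **For every variety `Y` (singular or open) over a field finitely generated over a finite field, with
Frobenius eigenvalues from the finite set `Ω`: the cycle class map of `X × Y` in dimension `j` is onto the
Galois invariants of the étale homology if and only if those of `Y` in the dimensions `j - k`,
`0 ≤ k ≤ dim X`, are, for all varieties `X` over
finite fields which satisfy the strong form of the conjecture of Tate, with nilpotent homologically
trivial correspondences, outside of at most `|Ω|` exceptional slope vectors.** -/
theorem result {p : ℕ} [Fact p.Prime] (ν : PadicAlgCl p ≃+* ℂ) {I : Type}
    (K : I → Type) [∀ i, Field (K i)] [∀ i, NumberField (K i)] [∀ i, IsCMField (K i)]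
    (w : I → ℕ) (hw : ∀ i, IsWeight (K i) (w i)) (Ω : Finset ℂ) :
    ∃ E : Finset (Σ i, ((K i →+* ℂ) → ℝ)), IsSmall w Ω E ∧
      ForAllTateVarieties ν K (fun X Q S => TateHomologyTimes p Ω X Q S) E := by
  exact exists_forAll ν K w hw Ω _ fun X Q S hX h =>
    tateHomologyTimes (hasClasses_of hX.correspondence h)

end Pool.Agent.Results.MP_40dc3c_ag.TimesTateVarieties
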